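import Pool.Agent.MP_961ca8_al.H18.Iface2

/-!
Module L: no approximate splitting of `w` over the field `K`.
-/

namespace Pool.Agent.MP_961ca8_al.H72

open MvPolynomial Pool.Agent.MP_961ca8_al.H18

/-- coefficient of `U₀^i U₁^j` -/
noncomputable def co {A : Type} [CommRing A] (i j : ℕ) (z : Polynomial (Polynomial A)) : A :=
  (z.coeff i).coeff j

section Co
variable {A : Type} [CommRing A]

theorem co_add (i j : ℕ) (y z : Polynomial (Polynomial A)) :
    co i j (y + z) = co i j y + co i j z := by simp [co]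

theorem co_sub (i j : ℕ) (y z : Polynomial (Polynomial A)) :
    co i j (y - z) = co i j y - co i j z := by simp [co]

theorem co_mono_mul (a b i j : ℕ) (c : A) (z : Polynomial (Polynomial A)) :
    co (i + a) (j + b) (Polynomial.monomial a (Polynomial.monomial b c) * z) = c * co i j z := by
  unfold co
  rw [Polynomial.coeff_monomial_mul, Polynomial.coeff_monomial_mul]

theorem co_C_mul (i j : ℕ) (c : A) (z : Polynomial (Polynomial A)) :
    co i j (Polynomial.C (Polynomial.C c) * z) = c * co i j z := by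
  unfold co
  rw [Polynomial.coeff_C_mul, Polynomial.coeff_C_mul]

/-- vanishing below total degree `n` -/
def Van (n : ℕ) (z : Polynomial (Polynomial A)) : Prop := ∀ i j, i + j < n → co i j z = 0

theorem Van.mul {m n : ℕ} {y z : Polynomial (Polynomial A)} (hy : Van m y) (hz : Van n z) :
    Van (m + n) (y * z) := by
  intro i j hij
  unfold co
  rw [Polynomial.coeff_mul, Polynomial.finsetSum_coeff]
  refine Finset.sum_eq_zero fun a ha => ?_
  rw [Polynomial.coeff_mul]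
  refine Finset.sum_eq_zero fun b hb => ?_
  have h1 : a.1 + a.2 = i := by simpa using ha
  have h2 : b.1 + b.2 = j := by simpa using hb
  by_cases h : a.1 + b.1 < m
  · have := hy a.1 b.1 h
    unfold co at this
    rw [this, zero_mul]
  · have := hz a.2 b.2 (by omega)
    unfold co at this
    rw [this, mul_zero]

theorem van_pow {S : Type} [CommRing S] (π : S →+* Polynomial (Polynomial A)) (P : Ideal S)
    (hP : ∀ y ∈ P, co 0 0 (π y) = 0) (n : ℕ) : ∀ y ∈ P ^ n, Van n (π y) := by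
  induction n with
  | zero => intro y _ i j h; omega
  | succ n ih =>
    intro y hy
    rw [pow_succ] at hy
    refine Submodule.mul_induction_on hy ?_ ?_
    · intro a ha b hb
      rw [map_mul]
      refine (ih a ha).mul ?_
      intro i j hij
      have hi : i = 0 := by omega
      have hj : j = 0 := by omega
      subst hi hj
      exact hP b hb
    · intro a b ha hb i j hij
      rw [map_add, co_add, ha i j hij, hb i j hij, add_zero]

theorem dvd_pow_of_mem {S : Type} [CommRing S] (ρ : S →+* Polynomial A) (P : Ideal S)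
    (hP : ∀ y ∈ P, (ρ y).coeff 0 = 0) (n : ℕ) : ∀ y ∈ P ^ n, Polynomial.X ^ n ∣ ρ y := by
  induction n with
  | zero => intro y _; simp
  | succ n ih =>
    intro y hy
    rw [pow_succ] at hy
    refine Submodule.mul_induction_on hy ?_ ?_
    · intro a ha b hb
      rw [map_mul, pow_succ]
      exact mul_dvd_mul (ih a ha) (Polynomial.X_dvd_iff.2 (hP b hb))
    · intro a b ha hb
      rw [map_add]
      exact dvd_add ha hb

end Co

section Basic
variable {D K : Type} [CommRing D] [CommRing K] (w : D) (μ : Fin 3 → D) (κ : D →+* K)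

theorem co_piT (i j : ℕ) (t : TT w μ) :
    co i j (piT w μ κ t) = MvPolynomial.map κ (co i j t.1.1) := by
  simp [co, piT]

theorem map_psi (b : BB D) :
    MvPolynomial.map κ (psi μ b) = psi (fun i => κ (μ i)) (MvPolynomial.map κ b) := by
  induction b using MvPolynomial.induction_on with
  | C d => simp
  | add a b ha hb => simp [ha, hb]
  | mul_X a j ha => simp [ha]

theorem map_scale (b : BB D) :
    (scale D b).map (MvPolynomial.map κ) = scale K (MvPolynomial.map κ b) := by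
  induction b using MvPolynomial.induction_on with
  | C d => simp
  | add a b ha hb => simp [ha, hb]
  | mul_X a j ha => simp [ha]

theorem co_T_00 (t : TT w μ) : co 0 0 (piT w μ κ t) = C (κ (dpart w μ t)) := by
  rw [co_piT, co, dpart_fst, map_C]

theorem co_T_d0 (d : ℕ) (t : TT w μ) :
    co d 0 (piT w μ κ t) = psi (fun i => κ (μ i)) (co 0 d (piT w μ κ t)) := by
  rw [co_piT, co_piT, ← map_psi]
  congr 1
  have h := congrArg (fun z => Polynomial.coeff z d) t.2.2.1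
  simpa [co, Polynomial.coeff_map] using h

theorem rho3_dvd (hw : κ w = 0) (t : P3 D) :
    Polynomial.X ^ 5 ∣ rho3 w κ hw (mk3 w t) - scale K (MvPolynomial.map κ (constantCoeff t)) := by
  rw [rho3, lift3_mk3]
  induction t using MvPolynomial.induction_on with
  | C d => simp
  | add a b ha hb =>
    have := dvd_add ha hb
    simp only [map_add]
    convert this using 1
    ring
  | mul_X a j ha =>
    simp only [map_mul, constantCoeff_X, mul_zero, map_zero, sub_zero, eval₂Hom_X']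
    refine Dvd.dvd.mul_left ?_ _
    fin_cases j <;> simp

theorem rhoT_coeff (hw : κ w = 0) (k : ℕ) (hk : k < 5) (t : TT w μ) :
    (rhoT w μ κ hw t).coeff k = co 0 k (piT w μ κ t) := by
  obtain ⟨t', ht'⟩ := mk3_surj w t.1.2
  have h1 : rhoT w μ κ hw t = rho3 w κ hw (mk3 w t') := by rw [ht']; rfl
  have h2 := Polynomial.X_pow_dvd_iff.1 (rho3_dvd w κ hw t') k hk
  rw [Polynomial.coeff_sub, sub_eq_zero] at h2
  rw [h1, h2, co_piT, co, t.2.2.2, ← ht', res_mk3, ← map_scale, Polynomial.coeff_map]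

theorem piT_con (i j : ℕ) (hi : 0 < i) (hj : 0 < j) (b : BB D) (hb : b.IsHomogeneous (i + j)) :
    piT w μ κ (con w μ i j hi hj b hb) =
      Polynomial.monomial i (Polynomial.monomial j (MvPolynomial.map κ b)) := by
  simp [piT, Polynomial.map_monomial]

theorem rhoT_a (hw : κ w = 0) : rhoT w μ κ hw (aT w μ 0 1) = Polynomial.X ^ 5 := by
  simp [rhoT, rho3]

theorem rhoT_y (hw : κ w = 0) (i : Fin 3) :
    rhoT w μ κ hw (yT w μ i) = Polynomial.C (X i) * Polynomial.X := by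
  simp [rhoT, rho3, yT]

theorem piT_y0_coeff :
    (piT w μ κ (yT w μ 0)).coeff 0 = Polynomial.monomial 1 (X 0) := by
  simp [piT, yT, Polynomial.map_monomial, Polynomial.coeff_monomial]

theorem hom3 (q : ℕ) {b : BB D} (hb : b.IsHomogeneous (2 * q)) (i : ℕ) (hi : i ≤ 4) :
    (C w * X 0 ^ (2 * q) * b : BB D).IsHomogeneous (i * q + (4 - i) * q) := by
  have h := ((isHomogeneous_C (Fin 3) w).mul ((isHomogeneous_X D (0 : Fin 3)).pow (2 * q))).mul hb
  rwa [show 0 + 1 * (2 * q) + 2 * q = i * q + (4 - i) * q by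
    rw [← add_mul, show i + (4 - i) = 4 by omega]; ring] at h

/-- the elements `c_i(b)` -/
noncomputable def cc (q : ℕ) (hq : 0 < q) (i : ℕ) (h1 : 0 < i) (h3 : i < 4) (b : BB D)
    (hb : b.IsHomogeneous (2 * q)) : TT w μ :=
  con w μ (i * q) ((4 - i) * q) (Nat.mul_pos h1 hq) (Nat.mul_pos (by omega) hq)
    (C w * X 0 ^ (2 * q) * b) (hom3 w q hb i h3.le)

noncomputable def r1 : TT w μ :=
  con w μ 1 2 one_pos two_pos (X 0 ^ 3) (by simpa using (isHomogeneous_X D (0 : Fin 3)).pow 3)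
noncomputable def r2 : TT w μ :=
  con w μ 2 1 two_pos one_pos (X 0 ^ 3) (by simpa using (isHomogeneous_X D (0 : Fin 3)).pow 3)
noncomputable def r0 : TT w μ :=
  con w μ 1 1 one_pos one_pos (X 0 ^ 2) (by simpa using (isHomogeneous_X D (0 : Fin 3)).pow 2)

theorem r_cc (q : ℕ) (hq : 0 < q) (i : ℕ) (h1 : 0 < i) (h3 : i + 1 < 4) (b : BB D)
    (hb : b.IsHomogeneous (2 * q)) :
    r2 w μ ^ q * cc w μ q hq i h1 (by omega) b hb =
      r1 w μ ^ q * cc w μ q hq (i + 1) (by omega) h3 b hb := by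
  apply TT_ext
  · simp only [r1, r2, cc, Subring.coe_mul, SubmonoidClass.coe_pow, Prod.fst_mul, Prod.pow_fst,
      con_fst, Polynomial.monomial_pow, Polynomial.monomial_mul_monomial]
    have e1 : 2 * q + i * q = 1 * q + (i + 1) * q := by ring
    have e2 : 1 * q + (4 - i) * q = 2 * q + (4 - (i + 1)) * q := by
      rw [show 4 - i = (4 - (i + 1)) + 1 by omega]; ring
    rw [e1, e2]
  · simp [r1, r2, cc]

theorem r0_sec (q : ℕ) (hq : 0 < q) (b : BB D) (hb : b.IsHomogeneous (2 * q)) :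
    r0 w μ ^ q * (cst w μ w * sec w μ (2 * q) (by omega) b hb) =
      cc w μ q hq 1 one_pos (by omega) b hb +
        cc w μ q hq 3 (by omega) (by omega) (psi μ b) (psi_homog μ hb) := by
  apply TT_ext
  · simp only [r0, cc, Subring.coe_mul, Subring.coe_add, SubmonoidClass.coe_pow, Prod.fst_mul,
      Prod.fst_add, Prod.pow_fst, con_fst, cst_fst, sec_fst, Polynomial.monomial_pow, mul_add,
      ← Polynomial.monomial_zero_left, Polynomial.monomial_mul_monomial]
    have e1 : 1 * q + (0 + 0) = 1 * q := by ring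
    have e2 : 1 * q + (0 + 2 * q) = (4 - 1) * q := by norm_num; ring
    have e3 : 1 * q + (0 + 2 * q) = 3 * q := by ring
    have e4 : 1 * q + (0 + 0) = (4 - 3) * q := by norm_num
    have e5 : ∀ c : BB D, (X 0 ^ 2) ^ q * (C w * c) = C w * X 0 ^ (2 * q) * c := fun c => by ring
    rw [e5, e5]
    congr 1
    · rw [e1, e2]
    · rw [e3, e4]
  · simp [r0, cc, hq.ne']

theorem sec_add (d : ℕ) (hd : 0 < d) (a b : BB D) (ha : a.IsHomogeneous d)
    (hb : b.IsHomogeneous d) :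
    sec w μ d hd (a + b) (ha.add hb) = sec w μ d hd a ha + sec w μ d hd b hb := by
  apply TT_ext
  · simp only [Subring.coe_add, Prod.fst_add, sec_fst, map_add]
    ring
  · simp

theorem sec_congr (d : ℕ) (hd : 0 < d) {a b : BB D} (ha : a.IsHomogeneous d)
    (hb : b.IsHomogeneous d) (h : a = b) : sec w μ d hd a ha = sec w μ d hd b hb := by
  subst h; rfl

theorem sec_zero (d : ℕ) (hd : 0 < d) : sec w μ d hd 0 (isHomogeneous_zero _ _ _) = 0 := by
  apply TT_ext <;> simp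

theorem sec_C_mul (d : ℕ) (hd : 0 < d) (m : D) (b : BB D) (hb : b.IsHomogeneous d)
    (hb' : (C m * b).IsHomogeneous d) :
    sec w μ d hd (C m * b) hb' = cst w μ m * sec w μ d hd b hb := by
  apply TT_ext
  · simp only [Subring.coe_mul, Prod.fst_mul, sec_fst, cst_fst, map_mul, psi_C, mul_add,
      Polynomial.C_mul_monomial]
  · simp

end Basic

section Main
variable {D K S : Type} [CommRing D] [Field K] [CommRing S]

/-- the data of module L -/
structure Dat (w : D) (μ : Fin 3 → D) (κ : D →+* K) (hw : κ w = 0) (j : TT w μ →+* S)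
    (ι : K →+* S) (ε : S →+* K) (πS : S →+* Pm K) (ρS : S →+* Polynomial (BB K)) (q : ℕ)
    (φ : S →+ S) : Prop where
  hπ : ∀ t, πS (j t) = piT w μ κ t
  hρ : ∀ t, ρS (j t) = rhoT w μ κ hw t
  hε : ∀ t, ε (j t) = κ (dpart w μ t)
  hπι : ∀ x, πS (ι x) = Polynomial.C (Polynomial.C (C x))
  hρι : ∀ x, ρS (ι x) = Polynomial.C (C x)
  hει : ∀ x, ε (ι x) = x
  hμ : ∀ i, j (cst w μ (μ i)) = ι (κ (μ i))
  surj : ∀ y : S, ∃ (x : K) (t : TT w μ), y = ι x * j t
  hq : 0 < q
  lin : ∀ r t : S, φ (r ^ q * t) - r * φ t ∈ (RingHom.ker ε) ^ 10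

variable {w : D} {μ : Fin 3 → D} {κ : D →+* K} {hw : κ w = 0} {j : TT w μ →+* S}
  {ι : K →+* S} {ε : S →+* K} {πS : S →+* Pm K} {ρS : S →+* Polynomial (BB K)} {q : ℕ}
  {φ : S →+ S}

namespace Dat

variable (H : Dat w μ κ hw j ι ε πS ρS q φ)
include H

theorem f00 (y : S) : co 0 0 (πS y) = C (ε y) := by
  obtain ⟨x, t, rfl⟩ := H.surj y
  rw [map_mul, H.hπι, co_C_mul, H.hπ, co_T_00, map_mul, H.hει, H.hε, map_mul]

theorem fd0 (d : ℕ) (y : S) : co d 0 (πS y) = psi (fun i => κ (μ i)) (co 0 d (πS y)) := by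
  obtain ⟨x, t, rfl⟩ := H.surj y
  rw [map_mul, H.hπι, co_C_mul, co_C_mul, H.hπ, co_T_d0, map_mul, psi_C]

theorem frho (k : ℕ) (hk : k < 5) (y : S) : (ρS y).coeff k = co 0 k (πS y) := by
  obtain ⟨x, t, rfl⟩ := H.surj y
  rw [map_mul, map_mul, H.hπι, H.hρι, co_C_mul, Polynomial.coeff_C_mul, H.hπ, H.hρ,
    rhoT_coeff w μ κ hw k hk]

theorem linπ (r t : S) (a b : ℕ) (hab : a + b < 10) :
    co a b (πS (φ (r ^ q * t))) = co a b (πS r * πS (φ t)) := by
  have h := van_pow πS (RingHom.ker ε) (fun y hy => by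
    rw [H.f00, RingHom.mem_ker.1 hy, map_zero]) 10 _ (H.lin r t) a b hab
  rwa [map_sub, co_sub, sub_eq_zero, map_mul πS] at h

theorem linρ (r t : S) (k : ℕ) (hk : k < 10) :
    (ρS (φ (r ^ q * t))).coeff k = (ρS r * ρS (φ t)).coeff k := by
  have h := dvd_pow_of_mem ρS (RingHom.ker ε) (fun y hy => by
    rw [H.frho 0 (by omega), H.f00, RingHom.mem_ker.1 hy, map_zero]) 10 _ (H.lin r t)
  have h2 := Polynomial.X_pow_dvd_iff.1 h k hk
  rwa [map_sub, Polynomial.coeff_sub, sub_eq_zero, map_mul ρS] at h2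

/-- step (a) -/
theorem stepA (x : K) (t : TT w μ) (ht : t.1.2 = 0) (k : ℕ) (hk : k < 5) :
    co 0 k (πS (φ (ι x * j t))) = 0 := by
  have h0 : aT w μ 0 1 * t = 0 := by
    apply TT_ext
    · simp
    · simp [ht]
  have h1 : j (aT w μ 0 1) ^ q * (ι x * j t) = 0 := by
    obtain ⟨n, hn⟩ := Nat.exists_eq_succ_of_ne_zero H.hq.ne'
    rw [hn, pow_succ]
    calc j (aT w μ 0 1) ^ n * j (aT w μ 0 1) * (ι x * j t)
        = j (aT w μ 0 1) ^ n * ι x * j (aT w μ 0 1 * t) := by rw [map_mul]; ring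
      _ = 0 := by rw [h0, map_zero, mul_zero]
  have h2 := H.linρ (j (aT w μ 0 1)) (ι x * j t) (k + 5) (by omega)
  rw [h1, map_zero, map_zero, Polynomial.coeff_zero, H.hρ, rhoT_a, Polynomial.coeff_X_pow_mul,
    H.frho k hk] at h2
  exact h2.symm

theorem stepA' (x : K) (t : TT w μ) (ht : t.1.2 = 0) (k : ℕ) (hk : k < 5) :
    co k 0 (πS (φ (ι x * j t))) = 0 := by
  rw [H.fd0, H.stepA x t ht k hk, map_zero]

theorem shift (x : K) (i : ℕ) (h1 : 0 < i) (h3 : i + 1 < 4) (b : BB D)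
    (hb : b.IsHomogeneous (2 * q)) (a c : ℕ) (hac : a + c < 6) :
    co a (c + 1) (πS (φ (ι x * j (cc w μ q H.hq i h1 (by omega) b hb)))) =
      co (a + 1) c (πS (φ (ι x * j (cc w μ q H.hq (i + 1) (by omega) h3 b hb)))) := by
  have e : j (r2 w μ) ^ q * (ι x * j (cc w μ q H.hq i h1 (by omega) b hb)) =
      j (r1 w μ) ^ q * (ι x * j (cc w μ q H.hq (i + 1) (by omega) h3 b hb)) := by
    have := congrArg j (r_cc w μ q H.hq i h1 h3 b hb)
    rw [map_mul, map_mul, map_pow, map_pow] at this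
    linear_combination ι x * this
  have a1 := H.linπ (j (r2 w μ)) (ι x * j (cc w μ q H.hq i h1 (by omega) b hb)) (a + 2)
    (c + 1 + 1) (by omega)
  have a2 := H.linπ (j (r1 w μ)) (ι x * j (cc w μ q H.hq (i + 1) (by omega) h3 b hb)) (a + 1 + 1)
    (c + 2) (by omega)
  rw [H.hπ, r2, piT_con, co_mono_mul] at a1
  rw [H.hπ, r1, piT_con, co_mono_mul] at a2
  rw [← r2, e] at a1
  rw [← r1] at a2
  have a3 := a1.symm.trans a2
  refine mul_left_cancel₀ ?_ a3
  simp

/-- the form `L(x,b)` -/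
noncomputable def LL (_H : Dat w μ κ hw j ι ε πS ρS q φ) (x : K) (b : BB D)
    (hb : b.IsHomogeneous (2 * q)) : BB K :=
  co 0 2 (πS (φ (ι x * j (cst w μ w * sec w μ (2 * q) (by have := _H.hq; omega) b hb))))

theorem coeffs (x : K) (b : BB D) (hb : b.IsHomogeneous (2 * q)) (a c : ℕ) (hac : a + c < 8) :
    X 0 ^ 2 * co a c (πS (φ (ι x * j (cst w μ w *
        sec w μ (2 * q) (by have := H.hq; omega) b hb)))) =
      co (a + 1) (c + 1) (πS (φ (ι x * j (cc w μ q H.hq 1 one_pos (by omega) b hb)))) +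
      co (a + 1) (c + 1) (πS (φ (ι x * j (cc w μ q H.hq 3 (by omega) (by omega) (psi μ b)
        (psi_homog μ hb))))) := by
  have e : j (r0 w μ) ^ q * (ι x * j (cst w μ w * sec w μ (2 * q) (by have := H.hq; omega) b hb)) =
      ι x * j (cc w μ q H.hq 1 one_pos (by omega) b hb) +
        ι x * j (cc w μ q H.hq 3 (by omega) (by omega) (psi μ b) (psi_homog μ hb)) := by
    have := congrArg j (r0_sec w μ q H.hq b hb)
    rw [map_mul, map_pow, map_add] at this
    linear_combination ι x * this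
  have a1 := H.linπ (j (r0 w μ)) (ι x * j (cst w μ w *
    sec w μ (2 * q) (by have := H.hq; omega) b hb)) (a + 1) (c + 1) (by omega)
  rw [e, map_add, map_add, co_add, H.hπ, r0, piT_con, co_mono_mul] at a1
  rw [a1]
  simp

theorem LL_eq (x : K) (b : BB D) (hb : b.IsHomogeneous (2 * q)) :
    X 0 ^ 2 * H.LL x b hb =
      co 1 3 (πS (φ (ι x * j (cc w μ q H.hq 1 one_pos (by omega) b hb)))) := by
  have h := H.coeffs x b hb 0 2 (by omega)
  have h2 := H.shift x 2 (by omega) (by omega) (psi μ b) (psi_homog μ hb) 0 3 (by omega)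
  rw [H.stepA x _ rfl 4 (by omega)] at h2
  rw [LL, h, ← h2, add_zero]

theorem LL_psi (x : K) (b : BB D) (hb : b.IsHomogeneous (2 * q)) :
    H.LL x (psi μ b) (psi_homog μ hb) = psi (fun i => κ (μ i)) (H.LL x b hb) := by
  have h := H.coeffs x b hb 2 0 (by omega)
  have h2 := H.shift x 1 (by omega) (by omega) b hb 3 0 (by omega)
  rw [H.stepA' x _ rfl 4 (by omega)] at h2
  have h3 := H.shift x 1 (by omega) (by omega) (psi μ b) (psi_homog μ hb) 1 2 (by omega)
  have h4 := H.shift x 2 (by omega) (by omega) (psi μ b) (psi_homog μ hb) 2 1 (by omega)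
  have h5 := H.LL_eq x (psi μ b) (psi_homog μ hb)
  rw [h2, zero_add, H.fd0, ← h4, ← h3, ← h5] at h
  refine (mul_left_cancel₀ ?_ h).symm
  simp

theorem LL_sub (x y : K) (b : BB D) (hb : b.IsHomogeneous (2 * q)) :
    H.LL (x - y) b hb = H.LL x b hb - H.LL y b hb := by
  unfold LL
  rw [map_sub, sub_mul, map_sub, map_sub, co_sub]

theorem LL_pow (l x : K) (b : BB D) (hb : b.IsHomogeneous (2 * q)) :
    H.LL (l ^ q * x) b hb = C l * H.LL x b hb := by
  unfold LL
  rw [map_mul ι, map_pow ι, mul_assoc, H.linπ _ _ 0 2 (by omega), H.hπι, co_C_mul]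

theorem LL_add (x : K) (a b : BB D) (ha : a.IsHomogeneous (2 * q))
    (hb : b.IsHomogeneous (2 * q)) :
    H.LL x (a + b) (ha.add hb) = H.LL x a ha + H.LL x b hb := by
  unfold LL
  rw [sec_add, mul_add, map_add, mul_add, map_add, map_add, co_add]

theorem LL_congr (x : K) {a b : BB D} (ha : a.IsHomogeneous (2 * q))
    (hb : b.IsHomogeneous (2 * q)) (h : a = b) : H.LL x a ha = H.LL x b hb := by
  subst h; rfl

theorem LL_zero (x : K) : H.LL x 0 (isHomogeneous_zero _ _ _) = 0 := by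
  unfold LL
  rw [sec_zero]
  simp [co]

theorem LL_sum {α : Type} (s : Finset α) (x : K) (f : α → BB D)
    (hf : ∀ i, (f i).IsHomogeneous (2 * q)) (hs : (∑ i ∈ s, f i).IsHomogeneous (2 * q)) :
    H.LL x (∑ i ∈ s, f i) hs = ∑ i ∈ s, H.LL x (f i) (hf i) := by
  classical
  induction s using Finset.induction_on with
  | empty => simpa using H.LL_zero x
  | insert a s ha ih =>
    have h1 : (∑ i ∈ s, f i).IsHomogeneous (2 * q) := IsHomogeneous.sum _ _ _ fun i _ => hf i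
    rw [H.LL_congr x hs ((hf a).add h1) (Finset.sum_insert ha), H.LL_add x _ _ (hf a) h1, ih h1,
      Finset.sum_insert ha]

theorem LL_mono (h0 : μ 0 = 1)
    (hind : ∀ a b a' b' : ℕ, κ (μ 1) ^ a * κ (μ 2) ^ b = κ (μ 1) ^ a' * κ (μ 2) ^ b' →
      a = a' ∧ b = b')
    (x : K) (a b c : ℕ) (ha : a < q) (hb : b < q) (hab : ¬ (a = 0 ∧ b = 0))
    (hh : (X 1 ^ a * X 2 ^ b * X 0 ^ c : BB D).IsHomogeneous (2 * q)) :
    H.LL x (X 1 ^ a * X 2 ^ b * X 0 ^ c) hh = 0 := by
  set m : BB D := X 1 ^ a * X 2 ^ b * X 0 ^ c with hm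
  have e1 : psi μ m = C (μ 1 ^ a * μ 2 ^ b) * m := by
    simp only [hm, map_mul, map_pow, psi_X, h0, map_one]
    ring
  have e2 : ∀ y : K, H.LL y (psi μ m) (psi_homog μ hh) =
      H.LL (κ (μ 1) ^ a * κ (μ 2) ^ b * y) m hh := by
    intro y
    rw [H.LL_congr y _ (e1 ▸ psi_homog μ hh) e1]
    unfold LL
    rw [sec_C_mul w μ _ _ _ m hh]
    congr 3
    simp only [map_mul, map_pow, H.hμ]
    ring
  ext g
  have e3 : ∀ y : K, coeff g (H.LL ((κ (μ 1) ^ a * κ (μ 2) ^ b -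
      (κ (μ 1) ^ g 1 * κ (μ 2) ^ g 2) ^ q) * y) m hh) = 0 := by
    intro y
    rw [sub_mul, H.LL_sub, ← e2, H.LL_psi y m hh, H.LL_pow, coeff_sub, coeff_psi, coeff_C_mul,
      Fin.prod_univ_three, h0]
    simp
  have e4 : κ (μ 1) ^ a * κ (μ 2) ^ b - (κ (μ 1) ^ g 1 * κ (μ 2) ^ g 2) ^ q ≠ 0 := by
    intro h
    rw [sub_eq_zero, mul_pow, ← pow_mul, ← pow_mul] at h
    obtain ⟨h1, h2⟩ := hind _ _ _ _ h
    apply hab
    constructor
    · rcases Nat.eq_zero_or_pos (g 1) with h3 | h3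
      · simp [h1, h3]
      · nlinarith
    · rcases Nat.eq_zero_or_pos (g 2) with h3 | h3
      · simp [h2, h3]
      · nlinarith
  have e5 := e3 ((κ (μ 1) ^ a * κ (μ 2) ^ b - (κ (μ 1) ^ g 1 * κ (μ 2) ^ g 2) ^ q)⁻¹ * x)
  rw [mul_inv_cancel_left₀ e4] at e5
  rw [e5, coeff_zero]

theorem co_y0 (z : S) : co 0 2 (πS (j (yT w μ 0) ^ 2) * πS z) = X 0 ^ 2 * C (ε z) := by
  rw [map_pow, H.hπ, ← H.f00]
  unfold co
  rw [Polynomial.mul_coeff_zero, ← Polynomial.constantCoeff_apply (piT w μ κ (yT w μ 0) ^ 2),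
    map_pow, Polynomial.constantCoeff_apply, piT_y0_coeff, Polynomial.monomial_pow]
  exact Polynomial.coeff_monomial_mul _ 2 0 _

theorem LL_X0 (hh : (X 0 ^ (2 * q) : BB D).IsHomogeneous (2 * q)) :
    H.LL 1 (X 0 ^ (2 * q)) hh = X 0 ^ 2 * C (ε (φ (j (cst w μ w)))) := by
  unfold LL
  have hq : 0 < 2 * q := by have := H.hq; omega
  obtain ⟨t, h1, ht⟩ : ∃ t : TT w μ, t.1.2 = 0 ∧
      cst w μ w * sec w μ (2 * q) hq (X 0 ^ (2 * q)) hh = t + cst w μ w * yT w μ 0 ^ (2 * q) := by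
    refine ⟨cst w μ w * sec w μ (2 * q) hq (X 0 ^ (2 * q)) hh -
      cst w μ w * yT w μ 0 ^ (2 * q), ?_, by ring⟩
    simp [yT]
  have h2 : ι 1 * j (cst w μ w * sec w μ (2 * q) hq (X 0 ^ (2 * q)) hh) =
      ι 1 * j t + (j (yT w μ 0) ^ 2) ^ q * j (cst w μ w) := by
    rw [ht, map_one, map_add, map_mul j, map_pow j]
    ring
  rw [h2, map_add, map_add, co_add, H.stepA 1 t h1 2 (by omega), zero_add,
    H.linπ _ _ 0 2 (by omega), H.co_y0]

end Dat

end Main

section Geo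
variable (D : Type) [CommRing D]

noncomputable def GG (q : ℕ) (k : Fin 3) : BB D :=
  ∑ i ∈ Finset.range q, X k ^ i * X 0 ^ (q - 1 - i)

theorem GG_mul (p e : ℕ) (hp : p.Prime) [CharP D p] (k : Fin 3) :
    GG D (p ^ e) k * (X k - X 0) = (X k - X 0) ^ p ^ e := by
  have := Fact.mk hp
  rw [GG, Commute.geom_sum₂_mul (Commute.all _ _), sub_pow_char_pow]

theorem GG_prod (q : ℕ) : GG D q 1 * GG D q 2 * X 0 ^ 2 =
    ∑ i : Fin q × Fin q, X 1 ^ i.1.1 * X 2 ^ i.2.1 * X 0 ^ (2 * q - i.1.1 - i.2.1) := by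
  rw [GG, GG, Finset.sum_range, Finset.sum_range, Finset.sum_mul_sum, Finset.sum_mul,
    Fintype.sum_prod_type]
  refine Finset.sum_congr rfl fun a _ => ?_
  rw [Finset.sum_mul]
  refine Finset.sum_congr rfl fun b _ => ?_
  have ha := a.2
  have hb := b.2
  rw [show 2 * q - a.1 - b.1 = (q - 1 - a.1) + (q - 1 - b.1) + 2 by omega]
  ring

theorem mono_hom (q : ℕ) (i : Fin q × Fin q) :
    (X 1 ^ i.1.1 * X 2 ^ i.2.1 * X 0 ^ (2 * q - i.1.1 - i.2.1) : BB D).IsHomogeneous (2 * q) := by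
  have h := (((isHomogeneous_X D (1 : Fin 3)).pow i.1.1).mul
    ((isHomogeneous_X D (2 : Fin 3)).pow i.2.1)).mul
    ((isHomogeneous_X D (0 : Fin 3)).pow (2 * q - i.1.1 - i.2.1))
  have ha := i.1.2
  have hb := i.2.2
  rwa [show 1 * i.1.1 + 1 * i.2.1 + 1 * (2 * q - i.1.1 - i.2.1) = 2 * q by omega] at h

theorem GG_hom (q : ℕ) : (GG D q 1 * GG D q 2 * X 0 ^ 2).IsHomogeneous (2 * q) := by
  rw [GG_prod]
  exact IsHomogeneous.sum _ _ _ fun i _ => mono_hom D q i

variable {D}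

theorem stepC (p e : ℕ) (hp : p.Prime) [CharP D p] (w : D) (μ : Fin 3 → D) (h : 0 < 2 * p ^ e) :
    aT w μ 0 1 ^ p ^ e * (cst w μ w * sec w μ (2 * p ^ e) h _ (GG_hom D (p ^ e))) =
      (yT w μ 1 - yT w μ 0) ^ p ^ e *
          aT w μ 1 (-(X 0 ^ (p ^ e - 1)) * C (X 0 ^ 2 * GG D (p ^ e) 2)) +
        (yT w μ 2 - yT w μ 0) ^ p ^ e *
          aT w μ 2 (-(X 0 ^ (p ^ e - 1)) * C (X 0 ^ 2 * GG D (p ^ e) 1)) := by
  have hq : 0 < p ^ e := by omega
  apply TT_ext
  · simp [zero_pow hq.ne']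
  · have g1 := congrArg (fun b => mk3 w (C b)) (GG_mul D p e hp 1)
    have g2 := congrArg (fun b => mk3 w (C b)) (GG_mul D p e hp 2)
    have g3 := mk3_FF w
    simp only [FF, xi, eta, map_add, map_mul, map_sub, map_pow] at g1 g2 g3
    have g4 : mk3 w (X 0) ^ p ^ e = mk3 w (X 0) ^ (p ^ e - 1) * mk3 w (X 0) := by
      rw [← pow_succ, Nat.sub_add_cancel hq]
    simp only [Subring.coe_mul, Subring.coe_add, SubmonoidClass.coe_pow, Prod.snd_mul,
      Prod.snd_add, Prod.pow_snd, aT_snd, cst_snd, sec_snd, yT, AddSubgroupClass.coe_sub,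
      Prod.snd_sub, map_mul, map_pow, map_neg, mul_one]
    rw [← g1, ← g2, g4]
    linear_combination mk3 w (X 0) ^ (p ^ e - 1) * mk3 w (C (GG D (p ^ e) 1)) *
      mk3 w (C (GG D (p ^ e) 2)) * mk3 w (C (X 0)) ^ 2 * g3

end Geo

theorem lp : LpStmt := by
  intro p D K S _ _ _ _ w μ κ hw j ι ε πS ρS hp h0 hind hπ hρ hε hπι hρι hει hμ surj e φ lin
  have hq : 0 < p ^ e := pow_pos hp.pos e
  have H : Dat w μ κ hw j ι ε πS ρS (p ^ e) φ := ⟨hπ, hρ, hε, hπι, hρι, hει, hμ, surj, hq, lin⟩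
  have h1 : H.LL 1 _ (GG_hom D (p ^ e)) = X 0 ^ 2 * C (ε (φ (j (cst w μ w)))) := by
    rw [H.LL_congr 1 _ (GG_prod D (p ^ e) ▸ GG_hom D (p ^ e)) (GG_prod D (p ^ e)),
      H.LL_sum _ 1 _ (mono_hom D (p ^ e)), Finset.sum_eq_single (⟨0, hq⟩, ⟨0, hq⟩)]
    · rw [← H.LL_X0 (by simpa using mono_hom D (p ^ e) (⟨0, hq⟩, ⟨0, hq⟩))]
      exact H.LL_congr 1 _ _ (by simp)
    · rintro ⟨a, b⟩ _ hab
      refine H.LL_mono h0 hind 1 _ _ _ a.2 b.2 ?_ _
      rintro ⟨ha, hb⟩
      exact hab (Prod.ext (Fin.ext ha) (Fin.ext hb))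
    · intro h
      exact absurd (Finset.mem_univ _) h
  have h2 := congrArg (fun t => (ρS (φ (j t))).coeff (2 + 5)) (stepC p e hp w μ (by omega))
  simp only [map_add, Polynomial.coeff_add] at h2
  rw [map_mul j, map_pow j, H.linρ _ _ _ (by omega), map_mul j ((yT w μ 1 - yT w μ 0) ^ p ^ e),
    map_pow j, H.linρ _ _ _ (by omega), map_mul j ((yT w μ 2 - yT w μ 0) ^ p ^ e),
    map_pow j, H.linρ _ _ _ (by omega), hρ, hρ, hρ, rhoT_a, Polynomial.coeff_X_pow_mul,
    H.frho 2 (by omega), map_sub, map_sub, rhoT_y, rhoT_y, rhoT_y, ← sub_mul, ← sub_mul,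
    ← map_sub, ← map_sub, mul_assoc (Polynomial.C _), mul_assoc (Polynomial.C _),
    Polynomial.coeff_C_mul, Polynomial.coeff_C_mul] at h2
  unfold Dat.LL at h1
  rw [map_one, one_mul, h2] at h1
  have h3 := congrArg (eval (fun _ => (1 : K))) h1
  simpa using h3.symm

end Pool.Agent.MP_961ca8_al.H72
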